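import Pool.Agent.TD.X2.Defs
import Pool.Agent.TD.N.Ifc
import Pool.Agent.TD.GP.Gm

/-! Nonzero functions do not vanish identically near a point (module TD_X2_DEN). -/

open scoped Topology NNReal

namespace Pool.Agent.TD.X2

variable {K A : Type} [NormedField K] [IsUltrametricDist K] [CommRing A] [IsDomain A]
  [Algebra K A] [Algebra.FiniteType K A]

/-- the translation `X ↦ X + Y` -/
noncomputable def shAll (K : Type) [NormedField K] (s : ℕ) :
    MvPolynomial (Fin s) K →ₐ[K] MvPolynomial (Fin s) (MvPolynomial (Fin s) K) :=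
  MvPolynomial.aeval fun i => MvPolynomial.C (MvPolynomial.X i) + MvPolynomial.X i

theorem shAll_coeff_zero (K : Type) [NormedField K] (s : ℕ) (P : MvPolynomial (Fin s) K) :
    (shAll K s P).coeff 0 = P := by
  have h : ((MvPolynomial.constantCoeff : MvPolynomial (Fin s) (MvPolynomial (Fin s) K) →+*
      MvPolynomial (Fin s) K).comp (shAll K s).toRingHom) = RingHom.id _ := by
    apply MvPolynomial.ringHom_ext
    · intro r
      have e1 : (shAll K s).toRingHom (MvPolynomial.C r) =
          MvPolynomial.C (MvPolynomial.C r) := by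
        show shAll K s (MvPolynomial.C r) = _
        unfold shAll
        rw [MvPolynomial.aeval_C]
        rfl
      rw [RingHom.comp_apply, e1, MvPolynomial.constantCoeff_C]
      rfl
    · intro i
      have e1 : (shAll K s).toRingHom (MvPolynomial.X i) =
          MvPolynomial.C (MvPolynomial.X i) + MvPolynomial.X i := by
        show shAll K s (MvPolynomial.X i) = _
        unfold shAll
        rw [MvPolynomial.aeval_X]
      rw [RingHom.comp_apply, e1, map_add, MvPolynomial.constantCoeff_C,
        MvPolynomial.constantCoeff_X, add_zero]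
      rfl
  exact congrArg (fun F : MvPolynomial (Fin s) K →+* MvPolynomial (Fin s) K => F P) h

/-- some coefficient of the translated polynomial is not in a given prime ideal -/
theorem shAll_coeff_notMem (K : Type) [NormedField K] (s : ℕ)
    (I : Ideal (MvPolynomial (Fin s) K)) [I.IsPrime] {P : MvPolynomial (Fin s) K} (hP : P ≠ 0) :
    ∃ u, (shAll K s P).coeff u ∉ I := by
  by_contra hc
  push Not at hc
  let q : MvPolynomial (Fin s) K →+* (MvPolynomial (Fin s) K ⧸ I) := Ideal.Quotient.mk I
  let β : MvPolynomial (Fin s) (MvPolynomial (Fin s) K ⧸ I) →+*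
      MvPolynomial (Fin s) (MvPolynomial (Fin s) K ⧸ I) :=
    (MvPolynomial.eval₂Hom MvPolynomial.C
      fun i => MvPolynomial.X i - MvPolynomial.C (q (MvPolynomial.X i)))
  have h : β.comp ((MvPolynomial.map q).comp (shAll K s).toRingHom) =
      MvPolynomial.map (q.comp (MvPolynomial.C : K →+* MvPolynomial (Fin s) K)) := by
    apply MvPolynomial.ringHom_ext
    · intro r
      have e1 : (shAll K s).toRingHom (MvPolynomial.C r) =
          MvPolynomial.C (MvPolynomial.C r) := by
        show shAll K s (MvPolynomial.C r) = _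
        unfold shAll
        rw [MvPolynomial.aeval_C]
        rfl
      rw [RingHom.comp_apply, RingHom.comp_apply, e1, MvPolynomial.map_C, MvPolynomial.map_C]
      show MvPolynomial.eval₂Hom _ _ _ = _
      rw [MvPolynomial.eval₂Hom_C]
      rfl
    · intro i
      have e1 : (shAll K s).toRingHom (MvPolynomial.X i) =
          MvPolynomial.C (MvPolynomial.X i) + MvPolynomial.X i := by
        show shAll K s (MvPolynomial.X i) = _
        unfold shAll
        rw [MvPolynomial.aeval_X]
      rw [RingHom.comp_apply, RingHom.comp_apply, e1, map_add, map_add, MvPolynomial.map_C,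
        MvPolynomial.map_X, MvPolynomial.map_X]
      show MvPolynomial.eval₂Hom _ _ _ + MvPolynomial.eval₂Hom _ _ _ = _
      rw [MvPolynomial.eval₂Hom_C, MvPolynomial.eval₂Hom_X']
      ring
  have h1 : MvPolynomial.map q (shAll K s P) = 0 := by
    ext u
    rw [MvPolynomial.coeff_map, MvPolynomial.coeff_zero]
    exact Ideal.Quotient.eq_zero_iff_mem.2 (hc u)
  have h2 : MvPolynomial.map (q.comp (MvPolynomial.C : K →+* MvPolynomial (Fin s) K)) P = 0 := by
    have e1 := congrArg (fun F : MvPolynomial (Fin s) K →+*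
      MvPolynomial (Fin s) (MvPolynomial (Fin s) K ⧸ I) => F P) h
    have e2 : (β.comp ((MvPolynomial.map q).comp (shAll K s).toRingHom)) P =
        β (MvPolynomial.map q (shAll K s P)) := rfl
    rw [← e1]
    show (β.comp ((MvPolynomial.map q).comp (shAll K s).toRingHom)) P = 0
    rw [e2, h1, map_zero]
  have hinj : Function.Injective (q.comp (MvPolynomial.C : K →+* MvPolynomial (Fin s) K)) :=
    RingHom.injective _
  apply hP
  apply MvPolynomial.map_injective _ hinj
  rw [h2, map_zero]

omit [IsUltrametricDist K] in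
/-- the Gauss extension with radii `0` -/
theorem gm_zero {R σ : Type} [CommRing R] [Algebra K R] [Finite σ] (z : Ber K R)
    (P : MvPolynomial σ R) : (gmp z (fun _ => 0)).v P = z.v (P.coeff 0) := by
  have h0 := gm_le z (fun _ => 0) P 0
  rw [mw_zero, NNReal.coe_one, mul_one] at h0
  apply le_antisymm _ h0
  obtain ⟨u, hu⟩ := gm_ex z (fun _ => 0) P
  by_cases hu0 : u = 0
  · rw [hu, hu0, mw_zero, NNReal.coe_one, mul_one]
  · obtain ⟨i, hi⟩ : ∃ i, u i ≠ 0 := by
      by_contra hc
      push Not at hc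
      exact hu0 (Finsupp.ext hc)
    have h1 : mw (fun _ : σ => (0 : ℝ≥0)) u = 0 := by
      unfold mw
      rw [Finsupp.prod]
      exact Finset.prod_eq_zero (Finsupp.mem_support_iff.2 hi) (zero_pow hi)
    rw [hu, h1, NNReal.coe_zero, mul_zero]
    exact z.nonneg _

/-- The set where a nonzero function does not vanish is dense. -/
theorem exists_ne (h7 : StmtQ7) {f : A} (hf : f ≠ 0) (z : Ber K A) {V : Set (Ber K A)}
    (hV : V ∈ 𝓝 z) : ∃ z' ∈ V, z'.v f ≠ 0 := by
  obtain ⟨s, g, hg, hfin⟩ := exists_finite_inj_algHom_of_fg K A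
  have hint : g.toRingHom.IsIntegral := RingHom.Finite.to_isIntegral hfin
  -- a nonzero multiple of `f`
  obtain ⟨p, hp, hd⟩ : ∃ p : MvPolynomial (Fin s) K, p ≠ 0 ∧ f ∣ g p := by
    let _ : Algebra (MvPolynomial (Fin s) K) A := g.toRingHom.toAlgebra
    have h1 : IsAlgebraic (MvPolynomial (Fin s) K) f :=
      IsIntegral.isAlgebraic (hint f)
    obtain ⟨r, hr, h2⟩ := h1.exists_nonzero_dvd (mem_nonZeroDivisors_of_ne_zero hf)
    exact ⟨r, hr, h2⟩
  have hz : Zmp g z := by
    refine ⟨1, ?_, ?_, ?_⟩
    · rw [z.one]; exact one_ne_zero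
    · exact hint 1
    · intro x
      exact ⟨0, hint _⟩
  have hN := h7 K (MvPolynomial (Fin s) K) A g hg z hz V hV
  set y : Ber K (MvPolynomial (Fin s) K) := Ber.res g z with hy
  have hc : Continuous fun t : ℝ≥0 =>
      Ber.res (shAll K s) (gmp y (fun _ : Fin s => t)) := by
    have h2 : Continuous fun t : ℝ≥0 => (y, fun _ : Fin s => t) :=
      continuous_const.prodMk (continuous_pi fun _ => continuous_id)
    have h3 : Continuous fun t : ℝ≥0 => gmp y (fun _ : Fin s => t) := continuous_gm.comp h2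
    exact (Ber.res_continuous _).comp h3
  have h0 : Ber.res (shAll K s) (gmp y (fun _ : Fin s => (0 : ℝ≥0))) = y := by
    apply Ber.ext_v
    intro a
    rw [Ber.res_v, gm_zero, shAll_coeff_zero]
  have hev : ∀ᶠ t : ℝ≥0 in 𝓝 0,
      Ber.res (shAll K s) (gmp y (fun _ : Fin s => t)) ∈ Ber.res g '' V := by
    have h1 := hc.tendsto 0
    rw [h0] at h1
    exact h1 hN
  obtain ⟨t, ht, htpos⟩ : ∃ t : ℝ≥0,
      Ber.res (shAll K s) (gmp y (fun _ : Fin s => t)) ∈ Ber.res g '' V ∧ 0 < t := by
    have h1 : ∀ᶠ t : ℝ≥0 in 𝓝[>] 0,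
        Ber.res (shAll K s) (gmp y (fun _ : Fin s => t)) ∈ Ber.res g '' V :=
      hev.filter_mono nhdsWithin_le_nhds
    exact (h1.and self_mem_nhdsWithin).exists
  obtain ⟨z', hz'V, hz'⟩ := ht
  refine ⟨z', hz'V, ?_⟩
  intro hzf
  obtain ⟨h, hh⟩ := hd
  have e1 : z'.v (g p) = 0 := by
    rw [hh, z'.mul, hzf, zero_mul]
  have e2 : (Ber.res g z').v p = 0 := e1
  rw [hz', Ber.res_v] at e2
  obtain ⟨u, hu⟩ := shAll_coeff_notMem K s y.ker hp
  have e3 := gm_le y (fun _ : Fin s => t) (shAll K s p) u
  rw [e2] at e3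
  have e4 : 0 < y.v ((shAll K s p).coeff u) := lt_of_le_of_ne (y.nonneg _) (Ne.symm hu)
  have e5 : (0 : ℝ) < mw (fun _ : Fin s => t) u := by
    exact_mod_cast mw_pos (fun _ => htpos) u
  exact absurd e3 (not_le.2 (mul_pos e4 e5))

end Pool.Agent.TD.X2
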