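import Pool.Agent.TD.X2.Fac
import Pool.Agent.TD.FA.Top

/-! Smooth points with weights one give data ND0 (module TD_X2_OK). -/

open scoped Topology NNReal

namespace Pool.Agent.TD.X2

variable {K A A' N I E : Type} [NormedField K] [IsUltrametricDist K] [CommRing A] [Algebra K A]
  [CommRing A'] [Algebra K A'] [AddCommGroup N] {P : AddSubmonoid N} {r : A →ₐ[K] A'} {χ : P → A}
  {χ' : N → A'} [Fintype I] [Fintype E] {w : P → ℝ} {mt : I → P} {ch : E → P} {M : Matroid E}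
  {e0 : E} {U : Set (P → ℝ)} {δ : ℝ}

namespace OkP

omit [IsUltrametricDist K] [CommRing A] [Algebra K A] [CommRing A'] [Algebra K A']
  [Fintype I] [Fintype E] in
/-- An open set of functions contains a basic neighbourhood. -/
theorem exists_basic {P : Type} {U : Set (P → ℝ)} {w : P → ℝ} (hU : IsOpen U) (hw : w ∈ U) :
    ∃ (G : Finset P) (ε : ℝ), 0 < ε ∧ ∀ b : P → ℝ, (∀ m ∈ G, |b m - w m| ≤ ε) → b ∈ U := by
  classical
  obtain ⟨G, u, hu, hsub⟩ := isOpen_pi_iff.1 hU w hw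
  have h1 : ∀ m : P, ∃ ε : ℝ, 0 < ε ∧ (m ∈ G → ∀ x : ℝ, |x - w m| ≤ ε → x ∈ u m) := by
    intro m
    by_cases hm : m ∈ G
    · obtain ⟨ε, hε, hball⟩ := Metric.isOpen_iff.1 (hu m hm).1 (w m) (hu m hm).2
      refine ⟨ε / 2, by positivity, fun _ x hx => hball ?_⟩
      rw [Metric.mem_ball, Real.dist_eq]
      linarith
    · exact ⟨1, one_pos, fun h => absurd h hm⟩
  choose ε hε hball using h1
  by_cases hG : G.Nonempty
  · refine ⟨G, G.inf' hG ε, ?_, fun b hb => hsub ?_⟩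
    · rw [Finset.lt_inf'_iff]
      exact fun m _ => hε m
    · intro m hm
      exact hball m hm (b m) ((hb m hm).trans (Finset.inf'_le _ hm))
  · refine ⟨G, 1, one_pos, fun b _ => hsub ?_⟩
    intro m hm
    exact absurd ⟨m, hm⟩ hG

omit [IsUltrametricDist K] [CommRing A] [Algebra K A] [CommRing A'] [Algebra K A'] in
/-- Continuity of the chart functions at the origin. -/
theorem exists_cont (α : I → ℕ) (n : E → ℤ) (d : ℝ) {ε : ℝ} (hε : 0 < ε) :
    ∃ η : ℝ, 0 < η ∧ ∀ (s : I → ℝ) (y : E → ℝ), (∀ i, |s i| < η) → (∀ e, |y e| < η) →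
      |Real.exp d * (∏ i, s i ^ α i) * Real.exp (∑ e, n e * y e) -
        Real.exp d * (∏ i, (0 : ℝ) ^ α i) * Real.exp (∑ e, n e * (0 : ℝ))| < ε := by
  let f : (I → ℝ) × (E → ℝ) → ℝ := fun p =>
    Real.exp d * (∏ i, p.1 i ^ α i) * Real.exp (∑ e, n e * p.2 e)
  have hf : Continuous f := by fun_prop
  have h1 := Metric.continuous_iff.1 hf 0 ε hε
  obtain ⟨η, hη, h2⟩ := h1
  refine ⟨η, hη, fun s y hs hy => ?_⟩
  have h3 := h2 (s, y) (by
    rw [dist_zero_right, Prod.norm_def, max_lt_iff]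
    exact ⟨(pi_norm_lt_iff hη).2 hs, (pi_norm_lt_iff hη).2 hy⟩)
  rw [Real.dist_eq] at h3
  exact h3

theorem w_eq {zw : Ber K A} (hzw : tr χ zw = w) (m : P) : zw.v (χ m) = w m := congrFun hzw m

theorem exists_delta (hX : CChart K χ w mt ch M e0 U δ) (G : Finset P) {ε : ℝ} (hε : 0 < ε) :
    ∃ δ0 : ℝ, 0 < δ0 ∧ δ0 ≤ δ ∧ ∀ z : Ber K A, tr χ z ∈ U → (∀ i, z.v (χ (mt i)) < δ0) →
      (∀ e, |ye χ w ch z e| < δ0) → ∀ m ∈ G, |z.v (χ m) - w m| ≤ ε := by
  classical
  obtain ⟨zw, hzw⟩ := hX.hw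
  have hzU : tr χ zw ∈ U := hzw ▸ hX.w_mem
  have h1 : ∀ m : P, ∃ η : ℝ, 0 < η ∧ ∀ z : Ber K A, tr χ z ∈ U →
      (∀ i, z.v (χ (mt i)) < η) → (∀ e, |ye χ w ch z e| < η) → |z.v (χ m) - w m| ≤ ε := by
    intro m
    obtain ⟨α, n, d, haff⟩ := hX.aff m
    obtain ⟨η, hη, hc⟩ := exists_cont α n d hε
    refine ⟨η, hη, fun z hz hs hy => ?_⟩
    have h2 := hc (fun i => z.v (χ (mt i))) (ye χ w ch z) (fun i => by
      rw [abs_of_nonneg (z.nonneg _)]
      exact hs i) hy
    rw [← haff z hz] at h2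
    have h3 : w m = Real.exp d * (∏ i, (0 : ℝ) ^ α i) * Real.exp (∑ e, n e * (0 : ℝ)) := by
      rw [← w_eq hzw m, haff zw hzU]
      have h4 : ∀ i, zw.v (χ (mt i)) = 0 := fun i => (w_eq hzw _).trans (hX.wt i)
      have h5 : ∀ e, ye χ w ch zw e = 0 := by
        intro e
        unfold ye
        rw [w_eq hzw, sub_self]
      simp only [h4, h5]
    rw [← h3] at h2
    exact h2.le
  choose η hη hz using h1
  by_cases hG : G.Nonempty
  · refine ⟨min δ (G.inf' hG η), lt_min hX.δpos ?_, min_le_left _ _, ?_⟩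
    · rw [Finset.lt_inf'_iff]
      exact fun m _ => hη m
    · intro z hzU hs hy m hm
      have h2 : min δ (G.inf' hG η) ≤ η m := (min_le_right _ _).trans (Finset.inf'_le _ hm)
      exact hz m z hzU (fun i => (hs i).trans_le h2) fun e => (hy e).trans_le h2
  · exact ⟨δ, hX.δpos, le_rfl, fun z _ _ _ m hm => absurd ⟨m, hm⟩ hG⟩

/-- The data. -/
noncomputable def dat (K : Type) {A N I E : Type} [NormedField K] [CommRing A] [Algebra K A]
    [AddCommGroup N] {P : AddSubmonoid N} (χ : P → A) (w : P → ℝ) (mt : I → P) (ch : E → P)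
    (M : Matroid E) (e0 : E) (G : Finset P) (ε δ0 : ℝ) : NDat K A I E where
  t i := χ (mt i)
  T e := χ (ch e)
  ρ e := (w (ch e)).toNNReal
  e0 := e0
  M := M
  V0 := {z | ∀ m ∈ G, |z.v (χ m) - w m| ≤ ε}
  δ0 := δ0

theorem w_nonneg (hX : CChart K χ w mt ch M e0 U δ) (m : P) : 0 ≤ w m := by
  obtain ⟨zw, hzw⟩ := hX.hw
  rw [← w_eq hzw]
  exact zw.nonneg _

theorem w_pos (hX : CChart K χ w mt ch M e0 U δ) (e : E) : 0 < w (ch e) :=
  lt_of_le_of_ne (w_nonneg hX _) (hX.wch e).symm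

theorem yc_eq (hX : CChart K χ w mt ch M e0 U δ) (G : Finset P) (ε δ0 : ℝ) (z : Ber K A)
    (e : E) : (dat K χ w mt ch M e0 G ε δ0).yc z e = ye χ w ch z e := by
  show Real.log (z.v (χ (ch e))) - Real.log ((w (ch e)).toNNReal : ℝ) = _
  rw [Real.coe_toNNReal _ (w_nonneg hX _)]
  rfl

end OkP

/-- (X2) -/
theorem exists_ok (hC : Chars K P r χ χ') (hX : CChart K χ w mt ch M e0 U δ)
    (hW : Wt K χ χ') : ∃ D : NDat K A I E, D.Ok ∧ D.t = (fun i => χ (mt i)) ∧
      D.T = (fun e => χ (ch e)) ∧ D.e0 = e0 ∧ D.M = M ∧ (∀ e, (D.ρ e : ℝ) = w (ch e)) ∧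
      D.Fw = {z | tr χ z = w} := by
  classical
  obtain ⟨G0, hG0⟩ := hC.exists_gens
  obtain ⟨G1, ε, hε, hG1⟩ := OkP.exists_basic hX.isOpen hX.w_mem
  set G := G0 ∪ G1 with hG
  obtain ⟨δ0, hδ0, hδ0', hδ⟩ := OkP.exists_delta hX G hε
  obtain ⟨zw, hzw⟩ := hX.hw
  have hzwU : tr χ zw ∈ U := hzw ▸ hX.w_mem
  set D := OkP.dat K χ w mt ch M e0 G ε δ0 with hD
  have hyc : ∀ z e, D.yc z e = ye χ w ch z e := OkP.yc_eq hX G ε δ0
  have hVU : ∀ z ∈ D.V0, tr χ z ∈ U := by
    intro z hz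
    refine hG1 _ fun m hm => ?_
    exact hz m (Finset.mem_union_right _ hm)
  have hclos : AddSubmonoid.closure (G : Set P) = ⊤ := by
    rw [eq_top_iff, ← hG0]
    apply AddSubmonoid.closure_mono
    rw [hG, Finset.coe_union]
    exact Set.subset_union_left
  -- points with the same coordinates
  have hsame : ∀ z z' : Ber K A, tr χ z = tr χ z' → z ∈ D.V0 → z' ∈ D.V0 := by
    intro z z' h hz m hm
    have h1 : z'.v (χ m) = z.v (χ m) := (congrFun h m).symm
    rw [h1]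
    exact hz m hm
  have hyew : ∀ z : Ber K A, tr χ z = w → (∀ i, z.v (χ (mt i)) = 0) ∧
      ∀ e, ye χ w ch z e = 0 := by
    intro z hz
    refine ⟨fun i => (OkP.w_eq hz _).trans (hX.wt i), fun e => ?_⟩
    unfold ye
    rw [OkP.w_eq hz, sub_self]
  have hFw : D.Fw = {z | tr χ z = w} := by
    ext z
    constructor
    · rintro ⟨hz, ht, hy⟩
      show tr χ z = w
      rw [← hzw]
      refine hX.ext (hVU z hz) hzwU (fun i => ?_) fun e => ?_
      · rw [(hyew zw hzw).1 i]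
        exact ht i
      · rw [(hyew zw hzw).2 e, ← hyc]
        exact hy e
    · intro hz
      have hz' : tr χ z = w := hz
      refine ⟨fun m _ => ?_, (hyew z hz').1, fun e => ?_⟩
      · rw [OkP.w_eq hz', sub_self, abs_zero]
        exact hε.le
      · rw [hyc]
        exact (hyew z hz').2 e
  -- the facets
  have hfac : ∀ (B : Set E) (s : I → ℝ≥0) (y : E → ℝ), M.IsBase B → e0 ∈ B →
      D.Gen δ0 B s y → ∃ (_ : Fintype (B \ {e0} : Set E)) (z0 : Ber K A)
        (coef : N →+ (I ⊕ (B \ {e0} : Set E) → ℤ)) (b : N →+ ℝ),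
        FA.Facet K χ' (fun j => (fu mt ch B e0 j : N)) coef b ∧
        (∀ m : P, z0.v (χ m) = Real.exp (b m)) ∧ z0 ∈ D.Fry s y ∧
        (∀ z ∈ D.Fry s y, tr χ z = tr χ z0) ∧ ∀ j, FA.wt b (fu mt ch B e0 j : N) =
          Sum.elim s (fun e : (B \ {e0} : Set E) => D.rd y e.1) j := by
    intro B s y hB he0 hg
    have : Fintype (B \ {e0} : Set E) := Fintype.ofFinite _
    obtain ⟨z0, hz0U, hz0t, hz0y⟩ := hX.ex s y (fun i => (hg.rlt i).trans_le hδ0')
      (fun e => (hg.ylt e).trans_le hδ0') hg.y0 hg.berg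
    have hye : ye χ w ch z0 = y := funext hz0y
    obtain ⟨coef, b, hfa, hb⟩ := hX.facet hC hW hB he0 (z0 := z0) hz0U (fun i => by
      rw [hz0t i]
      exact (NNReal.coe_pos.2 (hg.rpos i)).ne') (fun i => by
      rw [hz0t i]
      exact (hg.rlt i).trans_le hδ0') (fun e => by
      rw [hz0y e]
      exact (hg.ylt e).trans_le hδ0') (by
      rw [hye]
      exact hg.inj)
    have hz0V : z0 ∈ D.V0 := hδ z0 hz0U (fun i => by
      rw [hz0t i]
      exact hg.rlt i) fun e => by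
      rw [hz0y e]
      exact hg.ylt e
    refine ⟨this, z0, coef, b, hfa, hb, ⟨hz0V, hz0t, fun e => by rw [hyc, hz0y]⟩, ?_, ?_⟩
    · rintro z ⟨hzV, hzt, hzy⟩
      refine hX.ext (hVU z hzV) hz0U (fun i => ?_) fun e => ?_
      · rw [hz0t i]
        exact hzt i
      · rw [hz0y e, ← hyc]
        exact hzy e
    · intro j
      apply NNReal.eq
      rw [FA.TopP.coe_wt, ← hb]
      rcases j with i | e
      · exact hz0t i
      · show z0.v (χ (ch e.1)) = ((w (ch e.1)).toNNReal : ℝ) * ((Real.exp (y e.1)).toNNReal : ℝ)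
        have hpos := OkP.w_pos hX e.1
        have h0 : z0.v (χ (ch e.1)) ≠ 0 := hX.ne z0 hz0U e.1
        have h0' : 0 < z0.v (χ (ch e.1)) := lt_of_le_of_ne (z0.nonneg _) h0.symm
        rw [Real.coe_toNNReal _ hpos.le, Real.coe_toNNReal _ (Real.exp_pos _).le, ← hz0y e.1]
        unfold ye
        rw [Real.exp_sub, Real.exp_log h0', Real.exp_log hpos]
        field_simp
  -- the family `vr`
  have hvr : ∀ B : Set E, D.vr (B \ {e0}) = fun j => χ (fu mt ch B e0 j) := by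
    intro B
    funext j
    rcases j with i | e <;> rfl
  -- the points of `Fry s y` come from the fibre
  have hlift : ∀ (z0 : Ber K A) (b : N →+ ℝ), (∀ m : P, z0.v (χ m) = Real.exp (b m)) →
      ∀ z, tr χ z = tr χ z0 → ∃ z' ∈ FA.Fib K χ' b, Ber.res r z' = z := by
    intro z0 b hb z hz
    have h1 : ∀ m, z.v (χ m) = Real.exp (b m) := fun m => (congrFun hz m).trans (hb m)
    obtain ⟨z', hz'⟩ := hC.exists_ext z fun m => by
      rw [h1]
      exact (Real.exp_pos _).ne'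
    refine ⟨z', hC.mem_Fib_iff.2 fun m => ?_, hz'⟩
    rw [hz', h1]
  refine ⟨D, ?_, rfl, rfl, rfl, rfl, fun e => Real.coe_toNNReal _ (OkP.w_nonneg hX _), hFw⟩
  refine
    { ρpos := fun e => Real.toNNReal_pos.2 (OkP.w_pos hX e)
      ρ0 := ?_
      T0 := ?_
      ground := hX.ground
      loopless := hX.loopless
      δpos := hδ0
      comp := hC.isCompact hclos w ε
      Tne := fun z hz e => hX.ne z (hVU z hz) e
      ne := ?_
      nhd := ?_
      berg := ?_
      top := ?_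
      uniq := ?_
      dens := ?_ }
  · show (w (ch e0)).toNNReal = 1
    have h1 : w (ch e0) = 1 := by
      rw [← OkP.w_eq hzw, hX.ch0, hC.zero, zw.one]
    rw [h1, Real.toNNReal_one]
  · show χ (ch e0) = 1
    rw [hX.ch0, hC.zero]
  · rw [hFw]
    exact ⟨zw, hzw⟩
  · intro z hz
    rw [hFw] at hz
    have hz' : tr χ z = w := hz
    have hopen : IsOpen {z : Ber K A | ∀ m ∈ G, |z.v (χ m) - w m| < ε} := by
      have h1 : {z : Ber K A | ∀ m ∈ G, |z.v (χ m) - w m| < ε} =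
          ⋂ m ∈ G, {z : Ber K A | |z.v (χ m) - w m| < ε} := by
        ext z
        simp
      rw [h1]
      refine isOpen_biInter_finset fun m _ => ?_
      exact isOpen_lt (((Ber.continuous_v (χ m)).sub continuous_const).abs) continuous_const
    refine Filter.mem_of_superset (hopen.mem_nhds ?_) ?_
    · intro m _
      rw [OkP.w_eq hz', sub_self, abs_zero]
      exact hε
    · intro z1 hz1 m hm
      exact (hz1 m hm).le
  · intro z hz
    have h1 : D.yc z = ye χ w ch z := funext fun e => hyc z e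
    show BergM M (D.yc z)
    rw [h1]
    exact hX.berg z (hVU z hz)
  · intro B s y hB he0 hg
    obtain ⟨_, z0, coef, b, hfa, hb, hz0, hF, hwt⟩ := hfac B s y hB he0 hg
    obtain ⟨z', hz'F, hz'max, hz'g⟩ := FA.exists_top hfa
    have htr : tr χ z0 = tr χ (Ber.res r z') := by
      funext m
      show z0.v (χ m) = (Ber.res r z').v (χ m)
      rw [hb, hC.mem_Fib_iff.1 hz'F]
    refine ⟨Ber.res r z', ⟨hsame _ _ htr hz0.1, fun i => ?_, fun e => ?_⟩, ?_, ?_⟩
    · exact (congrFun htr (mt i)).symm.trans (hz0.2.1 i)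
    · rw [← hz0.2.2 e]
      show Real.log ((Ber.res r z').v (χ (ch e))) - _ = Real.log (z0.v (χ (ch e))) - _
      rw [show z0.v (χ (ch e)) = (Ber.res r z').v (χ (ch e)) from congrFun htr (ch e)]
    · intro z1 hz1
      obtain ⟨z1', hz1', rfl⟩ := hlift z0 b hb z1 (hF z1 hz1)
      exact Ber.res_mono r (hz'max z1' hz1')
    · show GaussAt (D.vr (B \ {e0})) _ _
      rw [hvr, gaussAt_iff, hC.fam_res (fu mt ch B e0) z']
      have h1 : (Sum.elim s fun e : (B \ {D.e0} : Set E) => D.rd y e.1) =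
          fun j => FA.wt b (fu mt ch B e0 j : N) := by
        funext j
        exact (hwt j).symm
      rw [h1]
      exact hz'g
  · intro B s y hB he0 hg z hz z' hz' hfam
    obtain ⟨_, z0, coef, b, hfa, hb, hz0, hF, -⟩ := hfac B s y hB he0 hg
    obtain ⟨z1, hz1, rfl⟩ := hlift z0 b hb z (hF z hz)
    obtain ⟨z2, hz2, rfl⟩ := hlift z0 b hb z' (hF z' hz')
    congr 1
    have h1 : fam (D.vr (B \ {e0})) (Ber.res r z1) = fam (D.vr (B \ {e0})) (Ber.res r z2) := hfam
    rw [hvr, hC.fam_res (fu mt ch B e0) z1, hC.fam_res (fu mt ch B e0) z2] at h1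
    exact FA.fib_uniq hfa hz1 hz2 h1
  · intro B s y hB he0 hg z hz
    obtain ⟨_, z0, coef, b, hfa, hb, hz0, hF, -⟩ := hfac B s y hB he0 hg
    obtain ⟨z1, hz1, rfl⟩ := hlift z0 b hb z (hF z hz)
    have h1 := hC.dens (fu mt ch B e0) (FA.fib_dens hfa hz1)
    show Dens (MvPolynomial.aeval (D.vr (B \ {e0}))) (Ber.res r z1)
    rw [hvr]
    exact h1

end Pool.Agent.TD.X2
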