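import Pool.Agent.TD.X2.Loc
import Pool.Agent.TD.MT.C5
import Pool.Agent.TD.MT.C6

/-! Charts of tropicalizations can be centred (module TD_X2_REC). -/

open scoped Topology NNReal

namespace Pool.Agent.TD.X2

variable {K A A' N k E : Type} [NormedField K] [CommRing A] [Algebra K A] [CommRing A']
  [Algebra K A'] [AddCommGroup N] {P : AddSubmonoid N} {r : A →ₐ[K] A'} {χ : P → A} {χ' : N → A'}
  [Fintype k] [Fintype E] {w : P → ℝ} {mm : k → P} {μ : E → P} {a : k → ℝ} {c : E → ℝ}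
  {M : Matroid E} {e0 : E} {U : Set (P → ℝ)} {U' : Set ((k → ℝ) × (E → ℝ))}

namespace Rec

/-- The neighbourhood `U1`. -/
def U1 (w : P → ℝ) (mm : k → P) (μ : E → P) (U : Set (P → ℝ)) (ds : ℝ) : Set (P → ℝ) :=
  {b | b ∈ U ∧ (∀ j : {i : k // w (mm i) ≠ 0}, 0 < b (mm j.1)) ∧
    ∀ e, 0 < b (μ e) ∧ |Real.log (b (μ e)) - Real.log (w (μ e))| < ds}

/-- Independence of the instance. -/
theorem prod_inst {α : Type} (i1 i2 : Fintype α) (f : α → ℝ) :
    (@Finset.univ α i1).prod f = (@Finset.univ α i2).prod f := by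
  rw [Subsingleton.elim i1 i2]

theorem isOpen_log (l ds : ℝ) : IsOpen {x : ℝ | 0 < x ∧ |Real.log x - l| < ds} := by
  have h1 : ContinuousOn (fun x : ℝ => |Real.log x - l|) (Set.Ioi 0) := by
    have h2 : ContinuousOn Real.log (Set.Ioi 0) :=
      Real.continuousOn_log.mono fun x hx => (ne_of_gt hx : x ≠ 0)
    exact (h2.sub continuousOn_const).abs
  exact h1.isOpen_inter_preimage isOpen_Ioi (isOpen_Iio (a := ds))

theorem isOpen_U1 (w : P → ℝ) (mm : k → P) (μ : E → P) {U : Set (P → ℝ)} (hU : IsOpen U)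
    (ds : ℝ) : IsOpen (U1 w mm μ U ds) := by
  have : Finite {i : k // w (mm i) ≠ 0} := inferInstance
  have h1 : IsOpen {b : P → ℝ | ∀ j : {i : k // w (mm i) ≠ 0}, 0 < b (mm j.1)} := by
    have : {b : P → ℝ | ∀ j : {i : k // w (mm i) ≠ 0}, 0 < b (mm j.1)} =
        ⋂ j : {i : k // w (mm i) ≠ 0}, {b : P → ℝ | 0 < b (mm j.1)} := by
      ext b
      simp only [Set.mem_setOf_eq, Set.mem_iInter]
    rw [this]
    exact isOpen_iInter_of_finite fun j => isOpen_lt continuous_const (continuous_apply _)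
  have h2 : IsOpen {b : P → ℝ |
      ∀ e, 0 < b (μ e) ∧ |Real.log (b (μ e)) - Real.log (w (μ e))| < ds} := by
    have : {b : P → ℝ | ∀ e, 0 < b (μ e) ∧ |Real.log (b (μ e)) - Real.log (w (μ e))| < ds} =
        ⋂ e : E, (fun b : P → ℝ => b (μ e)) ⁻¹'
          {x : ℝ | 0 < x ∧ |Real.log x - Real.log (w (μ e))| < ds} := by
      ext b
      simp only [Set.mem_setOf_eq, Set.mem_iInter, Set.mem_preimage]
    rw [this]
    exact isOpen_iInter_of_finite fun e => (isOpen_log _ _).preimage (continuous_apply _)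
  exact hU.inter (h1.inter h2)

theorem exp_zmul (x : ℝ) (n : ℤ) : Real.exp ((n : ℝ) * x) = Real.exp x ^ n := by
  rw [mul_comm, Real.exp_mul, Real.rpow_intCast]

/-- Smallness. -/
theorem exists_delta (a xw : k → ℝ) (hxw : ∀ i, 0 ≤ xw i) {ds d' : ℝ} (hds : 0 < ds)
    (hd : 0 < d') : ∃ δ : ℝ, 0 < δ ∧ δ ≤ ds ∧ δ ≤ d' ∧
      (∀ i, ∀ t : ℝ, t < δ → Real.exp (a i) * t < d') ∧
      ∀ i, ∀ s : ℝ, |s| < δ → |xw i * Real.exp s - xw i| < d' := by
  have hT : ∀ i, 0 ≤ Real.exp (a i) + 2 * xw i := fun i =>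
    add_nonneg (Real.exp_pos _).le (mul_nonneg zero_le_two (hxw i))
  obtain ⟨T, hTdef⟩ : ∃ T : ℝ, T = 1 + ∑ i, (Real.exp (a i) + 2 * xw i) := ⟨_, rfl⟩
  have hle : ∀ i, Real.exp (a i) + 2 * xw i ≤ ∑ i, (Real.exp (a i) + 2 * xw i) := fun i =>
    Finset.single_le_sum (f := fun i => Real.exp (a i) + 2 * xw i) (fun j _ => hT j)
      (Finset.mem_univ i)
  have hT1 : 1 ≤ T := by
    rw [hTdef]
    have := Finset.sum_nonneg fun i (_ : i ∈ Finset.univ) => hT i
    linarith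
  have hT0 : 0 < T := lt_of_lt_of_le one_pos hT1
  have hdT : 0 < d' / T := div_pos hd hT0
  have hdTT : T * (d' / T) = d' := mul_div_cancel₀ d' hT0.ne'
  refine ⟨min (min ds 1) (d' / T), lt_min (lt_min hds one_pos) hdT,
    (min_le_left _ _).trans (min_le_left _ _), ?_, ?_, ?_⟩
  · refine (min_le_right _ _).trans ?_
    rw [div_le_iff₀ hT0]
    nlinarith
  · intro i t ht
    have h1 : t < d' / T := lt_of_lt_of_le ht (min_le_right _ _)
    have h2 : Real.exp (a i) ≤ T := by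
      rw [hTdef]
      have := hle i
      have := hxw i
      linarith
    have h3 := Real.exp_pos (a i)
    calc Real.exp (a i) * t < Real.exp (a i) * (d' / T) := by
          exact mul_lt_mul_of_pos_left h1 h3
      _ ≤ T * (d' / T) := mul_le_mul_of_nonneg_right h2 hdT.le
      _ = d' := hdTT
  · intro i s hs
    have h1 : |s| < d' / T := lt_of_lt_of_le hs (min_le_right _ _)
    have h2 : |s| ≤ 1 := (lt_of_lt_of_le hs ((min_le_left _ _).trans (min_le_right _ _))).le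
    have h3 := Real.abs_exp_sub_one_le h2
    have h4 : 2 * xw i ≤ T := by
      rw [hTdef]
      have := hle i
      have := Real.exp_pos (a i)
      linarith
    have h5 : xw i * Real.exp s - xw i = xw i * (Real.exp s - 1) := by ring
    rw [h5, abs_mul, abs_of_nonneg (hxw i)]
    calc xw i * |Real.exp s - 1| ≤ xw i * (2 * |s|) := mul_le_mul_of_nonneg_left h3 (hxw i)
      _ = (2 * xw i) * |s| := by ring
      _ ≤ T * |s| := mul_le_mul_of_nonneg_right h4 (abs_nonneg _)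
      _ < T * (d' / T) := mul_lt_mul_of_pos_left h1 hT0
      _ = d' := hdTT

end Rec

/-- The coordinates `x_i` with `x_i(w) = -∞` are the characters `t_i`; the others and the `y_e` are
centred at `w`. -/
theorem Chart.exists_cchart [Fintype {i : k // w (mm i) = 0}] [Fintype {i : k // w (mm i) ≠ 0}]
    (hC : Chars K P r χ χ') (hX : Chart K χ w mm μ a c M e0 U U') :
    ∃ (M' : Matroid (E ⊕ {i : k // w (mm i) ≠ 0})) (U1 : Set (P → ℝ)) (δ : ℝ), U1 ⊆ U ∧
      CChart K χ w (fun i : {i : k // w (mm i) = 0} => mm i.1)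
        (Sum.elim μ fun i : {i : k // w (mm i) ≠ 0} => mm i.1) M' (Sum.inl e0) U1 δ := by
  classical
  obtain ⟨zw, hzw⟩ := hX.hw
  have hw0 : ∀ m, 0 ≤ w m := by
    intro m
    rw [← hzw]
    exact zw.nonneg _
  have hwμ : ∀ e, 0 < w (μ e) := by
    intro e
    refine lt_of_le_of_ne (hw0 _) (Ne.symm ?_)
    have h1 := hX.ne zw (by rw [hzw]; exact hX.w_mem) e
    have h2 : w (μ e) = zw.v (χ (μ e)) := by rw [← hzw]; rfl
    rw [h2]
    exact h1
  -- the image of `w`
  have hpw : ((cx mm a w, cy μ c w) : (k → ℝ) × (E → ℝ)) ∈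
      {p : (k → ℝ) × (E → ℝ) | p ∈ U' ∧ (∀ i, 0 ≤ p.1 i) ∧ p.2 e0 = 0 ∧ BergM M p.2} := by
    rw [← hX.img]
    exact ⟨w, ⟨hX.hw, hX.w_mem⟩, rfl⟩
  obtain ⟨hU'w, hxw, hve0, hvM⟩ := hpw
  obtain ⟨M1, hE1, hl1, ds, hds, hM1⟩ := exists_star hX.ground hX.loopless hvM
  have hM1' : ∀ y : E → ℝ, (∀ e, |y e| < ds) → (BergM M (cy μ c w + y) ↔ BergM M1 y) := hM1
  obtain ⟨M', hE', hl', hM'⟩ := exists_coloops (J := {i : k // w (mm i) ≠ 0}) M1 hE1 hl1
  obtain ⟨d', hd', hball⟩ := Metric.isOpen_iff.1 hX.isOpen' _ hU'w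
  obtain ⟨δ, hδ, hδs, hδd, hδa, hδx⟩ := Rec.exists_delta a (cx mm a w) hxw hds hd'
  have hin : ∀ (x : k → ℝ) (y : E → ℝ), (∀ i, |x i - cx mm a w i| < d') →
      (∀ e, |y e - cy μ c w e| < d') → (x, y) ∈ U' := by
    intro x y hx hy
    apply hball
    rw [Metric.mem_ball, Prod.dist_eq, max_lt_iff, dist_pi_lt_iff hd', dist_pi_lt_iff hd']
    exact ⟨fun i => by rw [Real.dist_eq]; exact hx i, fun e => by rw [Real.dist_eq]; exact hy e⟩
  -- the coordinates of a point
  have hcy : ∀ (z : Ber K A) (e : E), cy μ c (tr χ z) e = cy μ c w e +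
      ye χ w (Sum.elim μ fun i : {i : k // w (mm i) ≠ 0} => mm i.1) z (Sum.inl e) := by
    intro z e
    show c e + Real.log (z.v (χ (μ e))) =
      c e + Real.log (w (μ e)) + (Real.log (z.v (χ (μ e))) - Real.log (w (μ e)))
    ring
  refine ⟨M', Rec.U1 w mm μ U ds, δ, fun b hb => hb.1, ?_⟩
  refine ⟨hE', hl', hX.μ0, hX.hw, fun i => i.2, ?_, Rec.isOpen_U1 w mm μ hX.isOpen ds, ?_, hδ,
    ?_, ?_, ?_, ?_⟩
  · rintro (e | j)
    · exact (hwμ e).ne'
    · exact j.2
  · refine ⟨hX.w_mem, fun j => lt_of_le_of_ne (hw0 _) (Ne.symm j.2), fun e => ⟨hwμ e, ?_⟩⟩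
    rw [sub_self, abs_zero]
    exact hds
  · rintro z hz (e | j)
    · exact (hz.2.2 e).1.ne'
    · exact (hz.2.1 j).ne'
  · intro z hz
    refine (hM' _).2 ((hM1' _ fun e => (hz.2.2 e).2).1 ?_)
    have h1 : ((cx mm a (tr χ z), cy μ c (tr χ z)) : (k → ℝ) × (E → ℝ)) ∈
        {p : (k → ℝ) × (E → ℝ) | p ∈ U' ∧ (∀ i, 0 ≤ p.1 i) ∧ p.2 e0 = 0 ∧ BergM M p.2} := by
      rw [← hX.img]
      exact ⟨tr χ z, ⟨⟨z, rfl⟩, hz.1⟩, rfl⟩
    have h2 : BergM M (cy μ c (tr χ z)) := h1.2.2.2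
    have h3 : cy μ c (tr χ z) = cy μ c w + fun e =>
        ye χ w (Sum.elim μ fun i : {i : k // w (mm i) ≠ 0} => mm i.1) z (Sum.inl e) := by
      funext e
      exact hcy z e
    rw [h3] at h2
    exact h2
  · intro rr y hr hy hy0 hyM
    -- the point
    have hmem : ((fun i => if h : w (mm i) = 0 then Real.exp (a i) * (rr ⟨i, h⟩ : ℝ) else
        cx mm a w i * Real.exp (y (Sum.inr ⟨i, h⟩)),
        fun e => cy μ c w e + y (Sum.inl e)) : (k → ℝ) × (E → ℝ)) ∈
        {p : (k → ℝ) × (E → ℝ) | p ∈ U' ∧ (∀ i, 0 ≤ p.1 i) ∧ p.2 e0 = 0 ∧ BergM M p.2} := by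
      refine ⟨hin _ _ ?_ ?_, ?_, ?_, ?_⟩
      · intro i
        by_cases h : w (mm i) = 0
        · have h1 : cx mm a w i = 0 := by
            show Real.exp (a i) * w (mm i) = 0
            rw [h, mul_zero]
          have h2 : 0 ≤ Real.exp (a i) * (rr ⟨i, h⟩ : ℝ) :=
            mul_nonneg (Real.exp_pos _).le (rr ⟨i, h⟩).2
          rw [dif_pos h, h1, sub_zero, abs_of_nonneg h2]
          exact hδa i _ (hr _)
        · rw [dif_neg h]
          exact hδx i _ (hy _)
      · intro e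
        rw [add_sub_cancel_left]
        exact lt_of_lt_of_le (hy _) hδd
      · intro i
        show 0 ≤ dite _ _ _
        by_cases h : w (mm i) = 0
        · rw [dif_pos h]
          exact mul_nonneg (Real.exp_pos _).le (rr _).2
        · rw [dif_neg h]
          exact mul_nonneg (hxw i) (Real.exp_pos _).le
      · show cy μ c w e0 + y (Sum.inl e0) = 0
        rw [hy0, add_zero]
        exact hve0
      · show BergM M (cy μ c w + fun e => y (Sum.inl e))
        exact (hM1' _ fun e => lt_of_lt_of_le (hy _) hδs).2 ((hM' y).1 hyM)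
    rw [← hX.img] at hmem
    obtain ⟨b, ⟨⟨z, rfl⟩, hzU⟩, hb⟩ := hmem
    have hb1 : ∀ i, cx mm a (tr χ z) i = if h : w (mm i) = 0 then
        Real.exp (a i) * (rr ⟨i, h⟩ : ℝ) else cx mm a w i * Real.exp (y (Sum.inr ⟨i, h⟩)) :=
      fun i => congrFun (congrArg Prod.fst hb) i
    have hb2 : ∀ e, cy μ c (tr χ z) e = cy μ c w e + y (Sum.inl e) :=
      fun e => congrFun (congrArg Prod.snd hb) e
    have hzI : ∀ i : {i : k // w (mm i) = 0}, z.v (χ (mm i.1)) = rr i := by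
      intro i
      have h1 := hb1 i.1
      rw [dif_pos i.2] at h1
      exact mul_left_cancel₀ (Real.exp_pos (a i.1)).ne' h1
    have hzJ : ∀ j : {i : k // w (mm i) ≠ 0},
        z.v (χ (mm j.1)) = w (mm j.1) * Real.exp (y (Sum.inr j)) := by
      intro j
      have h1 := hb1 j.1
      rw [dif_neg j.2] at h1
      have h2 : Real.exp (a j.1) * z.v (χ (mm j.1)) =
          Real.exp (a j.1) * (w (mm j.1) * Real.exp (y (Sum.inr j))) := by
        rw [← mul_assoc]
        exact h1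
      exact mul_left_cancel₀ (Real.exp_pos (a j.1)).ne' h2
    have hye : ∀ e, ye χ w (Sum.elim μ fun i : {i : k // w (mm i) ≠ 0} => mm i.1) z e = y e := by
      rintro (e | j)
      · have h1 := hb2 e
        rw [hcy z e] at h1
        exact add_left_cancel h1
      · have hj : 0 < w (mm j.1) := lt_of_le_of_ne (hw0 _) (Ne.symm j.2)
        show Real.log (z.v (χ (mm j.1))) - Real.log (w (mm j.1)) = y (Sum.inr j)
        rw [hzJ j, Real.log_mul hj.ne' (Real.exp_pos _).ne', Real.log_exp]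
        ring
    refine ⟨z, ⟨hzU, ?_, ?_⟩, hzI, hye⟩
    · intro j
      show 0 < z.v (χ (mm j.1))
      rw [hzJ j]
      exact mul_pos (lt_of_le_of_ne (hw0 _) (Ne.symm j.2)) (Real.exp_pos _)
    · intro e
      refine ⟨lt_of_le_of_ne (z.nonneg _) (Ne.symm (hX.ne z hzU e)), ?_⟩
      have h1 := hye (Sum.inl e)
      show |ye χ w (Sum.elim μ fun i : {i : k // w (mm i) ≠ 0} => mm i.1) z (Sum.inl e)| < ds
      rw [h1]
      exact lt_of_lt_of_le (hy _) hδs
  · intro m
    obtain ⟨α, n, d, hα, hf⟩ := hX.aff m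
    refine ⟨fun i => (α i.1).toNat, Sum.elim n fun j => α j.1,
      d + (∑ i : {i : k // w (mm i) = 0}, (α i.1 : ℝ) * a i.1) +
        (∑ j : {i : k // w (mm i) ≠ 0}, (α j.1 : ℝ) * (a j.1 + Real.log (w (mm j.1)))) +
        ∑ e, (n e : ℝ) * cy μ c w e, ?_⟩
    intro z hz
    have hI : ∀ i : {i : k // w (mm i) = 0}, cx mm a (tr χ z) i.1 ^ α i.1 =
        Real.exp ((α i.1 : ℝ) * a i.1) * z.v (χ (mm i.1)) ^ (α i.1).toNat := by
      intro i
      show (Real.exp (a i.1) * z.v (χ (mm i.1))) ^ α i.1 = _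
      rw [mul_zpow, ← Rec.exp_zmul]
      congr 1
      conv_lhs => rw [← Int.toNat_of_nonneg (hα i.1 i.2)]
      rw [zpow_natCast]
    have hJ : ∀ j : {i : k // w (mm i) ≠ 0}, cx mm a (tr χ z) j.1 ^ α j.1 =
        Real.exp ((α j.1 : ℝ) * (a j.1 + Real.log (w (mm j.1)))) *
        Real.exp ((α j.1 : ℝ) *
          ye χ w (Sum.elim μ fun i : {i : k // w (mm i) ≠ 0} => mm i.1) z (Sum.inr j)) := by
      intro j
      have hj : 0 < z.v (χ (mm j.1)) := hz.2.1 j
      have h1 : cx mm a (tr χ z) j.1 = Real.exp (a j.1 + Real.log (w (mm j.1)) +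
          ye χ w (Sum.elim μ fun i : {i : k // w (mm i) ≠ 0} => mm i.1) z (Sum.inr j)) := by
        show Real.exp (a j.1) * z.v (χ (mm j.1)) = Real.exp (a j.1 + Real.log (w (mm j.1)) +
          (Real.log (z.v (χ (mm j.1))) - Real.log (w (mm j.1))))
        have h2 : a j.1 + Real.log (w (mm j.1)) +
          (Real.log (z.v (χ (mm j.1))) - Real.log (w (mm j.1))) =
            a j.1 + Real.log (z.v (χ (mm j.1))) := by ring
        rw [h2, Real.exp_add, Real.exp_log hj]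
      rw [h1, ← Rec.exp_zmul, ← Real.exp_add]
      congr 1
      ring
    have hprod : ∏ i, cx mm a (tr χ z) i ^ α i =
        (∏ i : {i : k // w (mm i) = 0}, cx mm a (tr χ z) i.1 ^ α i.1) *
        ∏ j : {i : k // w (mm i) ≠ 0}, cx mm a (tr χ z) j.1 ^ α j.1 := by
      rw [← Fintype.prod_subtype_mul_prod_subtype (fun i : k => w (mm i) = 0)]
      exact congrArg₂ (fun a b : ℝ => a * b) (Rec.prod_inst _ _ _) (Rec.prod_inst _ _ _)
    have hsum : ∑ e, (n e : ℝ) * cy μ c (tr χ z) e = (∑ e, (n e : ℝ) * cy μ c w e) +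
        ∑ e, (n e : ℝ) *
          ye χ w (Sum.elim μ fun i : {i : k // w (mm i) ≠ 0} => mm i.1) z (Sum.inl e) := by
      rw [← Finset.sum_add_distrib]
      refine Finset.sum_congr rfl fun e _ => ?_
      rw [hcy z e, mul_add]
    rw [hf z hz.1, hprod, hsum, Finset.prod_congr rfl fun i _ => hI i,
      Finset.prod_congr rfl fun j _ => hJ j, Finset.prod_mul_distrib, Finset.prod_mul_distrib,
      ← Real.exp_sum, ← Real.exp_sum, ← Real.exp_sum, Fintype.sum_sum_type]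
    simp only [Sum.elim_inl, Sum.elim_inr]
    rw [Real.exp_add, Real.exp_add, Real.exp_add, Real.exp_add, Real.exp_add]
    ring

end Pool.Agent.TD.X2
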