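import Pool.Agent.TD.N.Data
import Pool.Agent.TD.FA.Defs

/-!
# Smooth points of tropicalizations, algebraic form (PAPER2.md, X1, X2): definitions

`A` is a `K`-algebra spanned by characters `χ m`, `m ∈ P`, `P` a submonoid of the group `N`; `A'` is
the algebra in which the characters are invertible, `χ'` its characters.  The tropicalization is the
set of the functions `tr χ z = (m ↦ |χ m|_z)`, `z ∈ M(A)`.
-/

open scoped Topology NNReal

namespace Pool.Agent.TD.X2

/-- An algebra spanned by characters, and the algebra in which they are invertible. -/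
structure Chars (K : Type) {A A' N : Type} [NormedField K] [CommRing A] [Algebra K A]
    [CommRing A'] [Algebra K A'] [AddCommGroup N] (P : AddSubmonoid N) (r : A →ₐ[K] A')
    (χ : P → A) (χ' : N → A') : Prop where
  zero : χ 0 = 1
  add : ∀ m m', χ (m + m') = χ m * χ m'
  zero' : χ' 0 = 1
  add' : ∀ m m', χ' (m + m') = χ' m * χ' m'
  comp : ∀ m : P, r (χ m) = χ' m
  span : ∀ a : A, ∃ F : P →₀ K, (F.sum fun m c => algebraMap K A c * χ m) = a
  span' : ∀ a : A', ∃ F : N →₀ K, FA.ev χ' F = a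
  inj : Function.Injective r
  gen : ∀ m : N, ∃ a b : P, m = (a : N) - b
  fgP : P.FG

variable {K A A' N k I E : Type} [NormedField K] [CommRing A] [Algebra K A] [CommRing A']
  [Algebra K A'] [AddCommGroup N] {P : AddSubmonoid N}

/-- The tropicalization map. -/
def tr (χ : P → A) (z : Ber K A) (m : P) : ℝ := z.v (χ m)

/-- The coordinate `exp (a_i) |χ^{m_i}|` of `[0,∞)`. -/
noncomputable def cx (mm : k → P) (a : k → ℝ) (b : P → ℝ) (i : k) : ℝ := Real.exp (a i) * b (mm i)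

/-- The coordinate `c_e + log |χ^{μ_e}|`. -/
noncomputable def cy (μ : E → P) (c : E → ℝ) (b : P → ℝ) (e : E) : ℝ := c e + Real.log (b (μ e))

/-- A chart of the tropicalization near `w`: the coordinates `cx`, `cy` identify the part of the
tropicalization in `U` with the part of `[0,∞)^k × Σ_M` in `U'`, and the other characters are
integral affine functions of the coordinates. -/
structure Chart (K : Type) {A N k E : Type} [NormedField K] [CommRing A] [Algebra K A]
    [AddCommGroup N] {P : AddSubmonoid N} [Fintype k] [Fintype E] (χ : P → A) (w : P → ℝ)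
    (mm : k → P) (μ : E → P) (a : k → ℝ) (c : E → ℝ) (M : Matroid E) (e0 : E)
    (U : Set (P → ℝ)) (U' : Set ((k → ℝ) × (E → ℝ))) : Prop where
  ground : M.E = Set.univ
  loopless : ∀ e, M.Indep {e}
  μ0 : μ e0 = 0
  c0 : c e0 = 0
  hw : w ∈ Set.range (tr (K := K) χ)
  isOpen : IsOpen U
  w_mem : w ∈ U
  ne : ∀ z : Ber K A, tr χ z ∈ U → ∀ e, z.v (χ (μ e)) ≠ 0
  isOpen' : IsOpen U'
  img : (fun b => (cx mm a b, cy μ c b)) '' (Set.range (tr (K := K) χ) ∩ U) =
    {p | p ∈ U' ∧ (∀ i, 0 ≤ p.1 i) ∧ p.2 e0 = 0 ∧ BergM M p.2}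
  aff : ∀ m : P, ∃ (α : k → ℤ) (n : E → ℤ) (d : ℝ), (∀ i, w (mm i) = 0 → 0 ≤ α i) ∧
    ∀ z : Ber K A, tr χ z ∈ U → z.v (χ m) = Real.exp d * (∏ i, cx mm a (tr χ z) i ^ α i) *
      Real.exp (∑ e, n e * cy μ c (tr χ z) e)

/-- The tropical coordinates centred at `w`. -/
noncomputable def ye (χ : P → A) (w : P → ℝ) (ch : E → P) (z : Ber K A) (e : E) : ℝ :=
  Real.log (z.v (χ (ch e))) - Real.log (w (ch e))

/-- A chart centred at `w`: the characters `mt i` vanish at `w`, the coordinates `ye` are zero at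
`w`. -/
structure CChart (K : Type) {A N I E : Type} [NormedField K] [CommRing A] [Algebra K A]
    [AddCommGroup N] {P : AddSubmonoid N} [Fintype I] [Fintype E] (χ : P → A) (w : P → ℝ)
    (mt : I → P) (ch : E → P) (M : Matroid E) (e0 : E) (U : Set (P → ℝ)) (δ : ℝ) : Prop where
  ground : M.E = Set.univ
  loopless : ∀ e, M.Indep {e}
  ch0 : ch e0 = 0
  hw : w ∈ Set.range (tr (K := K) χ)
  wt : ∀ i, w (mt i) = 0
  wch : ∀ e, w (ch e) ≠ 0
  isOpen : IsOpen U
  w_mem : w ∈ U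
  δpos : 0 < δ
  ne : ∀ z : Ber K A, tr χ z ∈ U → ∀ e, z.v (χ (ch e)) ≠ 0
  berg : ∀ z : Ber K A, tr χ z ∈ U → BergM M (ye χ w ch z)
  ex : ∀ (r : I → ℝ≥0) (y : E → ℝ), (∀ i, (r i : ℝ) < δ) → (∀ e, |y e| < δ) → y e0 = 0 →
    BergM M y → ∃ z : Ber K A, tr χ z ∈ U ∧ (∀ i, z.v (χ (mt i)) = r i) ∧
      ∀ e, ye χ w ch z e = y e
  aff : ∀ m : P, ∃ (α : I → ℕ) (n : E → ℤ) (d : ℝ), ∀ z : Ber K A, tr χ z ∈ U →
    z.v (χ m) = Real.exp d * (∏ i, z.v (χ (mt i)) ^ α i) *
      Real.exp (∑ e, n e * ye χ w ch z e)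

/-- Near the point `b` of the open stratum the tropicalization `S` is the affine space `b + Λ`. -/
def LinAbs (S : Set (P → ℝ)) (b : N →+ ℝ) (Λ : Submodule ℝ (N →+ ℝ)) : Prop :=
  ∃ O : Set (P → ℝ), IsOpen O ∧ (fun m : P => Real.exp (b m)) ∈ O ∧
    ∀ b' ∈ O, b' ∈ S ↔ ∃ l ∈ Λ, ∀ m : P, b' m = Real.exp (b m) * Real.exp (l m)

/-- The weights are one: at points of the open stratum near which the tropicalization is
`b + Λ`, the characters in `Λ^⊥` are near constants. -/
def Wt (K : Type) {A A' N : Type} [NormedField K] [CommRing A] [Algebra K A] [CommRing A']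
    [Algebra K A'] [AddCommGroup N] {P : AddSubmonoid N} (χ : P → A) (χ' : N → A') : Prop :=
  ∀ b : N →+ ℝ, (fun m : P => Real.exp (b m)) ∈ Set.range (tr (K := K) χ) →
    ∀ Λ : Submodule ℝ (N →+ ℝ), LinAbs (Set.range (tr (K := K) χ)) b Λ →
      ∀ m : N, (∀ l ∈ Λ, l m = 0) → ∃ c : K,
        (FA.qn (K := K) χ' b (χ' m - algebraMap K A' c) : ℝ) < Real.exp (b m)

end Pool.Agent.TD.X2
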