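import Pool.Agent.TD.MT.C1
import Pool.Agent.TD.MT.C2

/-! Matroids: the tropical linear space is an affine space near a generic point (module
TD_X2_LL). -/

namespace Pool.Agent.TD

/-- The differences of the values on a set on which `y` is injective are bounded below. -/
theorem LL.exists_gap {E : Type} [Finite E] {y : E → ℝ} {B : Set E} (hinj : Set.InjOn y B) :
    ∃ g : ℝ, 0 < g ∧ ∀ b ∈ B, ∀ b' ∈ B, b ≠ b' → g ≤ |y b - y b'| := by
  rcases Set.eq_empty_or_nonempty {p : E × E | p.1 ∈ B ∧ p.2 ∈ B ∧ p.1 ≠ p.2} with h | h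
  · refine ⟨1, one_pos, fun b hb b' hb' hne => ?_⟩
    have : (b, b') ∈ {p : E × E | p.1 ∈ B ∧ p.2 ∈ B ∧ p.1 ≠ p.2} := ⟨hb, hb', hne⟩
    rw [h] at this
    exact absurd this (Set.notMem_empty _)
  · obtain ⟨p, hp, hmin⟩ := Set.exists_min_image _ (fun p : E × E => |y p.1 - y p.2|)
      (Set.toFinite _) h
    refine ⟨|y p.1 - y p.2|, ?_, fun b hb b' hb' hne => hmin (b, b') ⟨hb, hb', hne⟩⟩
    rw [abs_pos, sub_ne_zero]
    intro he
    exact hp.2.2 (hinj hp.1 hp.2.1 he)

/-- Near a point which is injective on a basis `B` the tropical linear space is given by the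
equations `y e = y (β e)`. -/
theorem BergM.locally_linear {E : Type} [Finite E] {M : Matroid E} {y : E → ℝ}
    (hE : M.E = Set.univ) (hl : ∀ e, M.Indep {e}) (hy : BergM M y) {B : Set E}
    (hB : M.IsBase B) (hinj : Set.InjOn y B) : ∃ β : E → E, (∀ e, β e ∈ B) ∧
      (∀ b ∈ B, β b = b) ∧ ∃ δ : ℝ, 0 < δ ∧ ∀ y' : E → ℝ, (∀ e, |y' e - y e| < δ) →
        (BergM M y' ↔ ∀ e, y' e = y' (β e)) := by
  classical
  have hcl : ∀ e, e ∈ M.closure B := by
    intro e
    rw [hB.closure_eq, hE]
    exact Set.mem_univ e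
  have hex : ∀ e : E, ∃ b ∈ B, (e ∈ B → b = e) ∧ (e ∉ B → b ∈ M.fundCircuit e B ∧
      ∀ b' ∈ M.fundCircuit e B, y b' ≤ y b) := by
    intro e
    by_cases he : e ∈ B
    · exact ⟨e, he, fun _ => rfl, fun h => absurd he h⟩
    · obtain ⟨b, h1, h2, h3, h4⟩ := hy.closure hB.indep hinj (hcl e) he
      exact ⟨b, h2, fun h => absurd h he, fun _ => ⟨h1, h4⟩⟩
  choose β hβB hβe hβm using hex
  obtain ⟨g, hg, hgap⟩ := LL.exists_gap hinj
  refine ⟨β, hβB, fun b hb => hβe b hb, g / 3, by positivity, ?_⟩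
  intro y' hy'
  have habs : ∀ e, y' e - y e < g / 3 ∧ y e - y' e < g / 3 := by
    intro e
    have := abs_lt.mp (hy' e)
    constructor <;> linarith [this.1, this.2]
  have hinj' : Set.InjOn y' B := by
    intro b hb b' hb' he
    by_contra hne
    have h1 := hgap b hb b' hb' hne
    have h2 := habs b
    have h3 := habs b'
    rcases abs_cases (y b - y b') with ⟨h4, _⟩ | ⟨h4, _⟩ <;> linarith
  have hlt : ∀ e ∉ B, ∀ b ∈ M.fundCircuit e B, b ∈ B → b ≠ β e → y' b < y' (β e) := by
    intro e he b hb hbB hne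
    have h1 := (hβm e he).2 b hb
    have h2 := hgap b hbB (β e) (hβB e) hne
    rw [abs_of_nonpos (by linarith)] at h2
    have h3 := habs b
    have h4 := habs (β e)
    linarith
  constructor
  · intro hb e
    by_cases he : e ∈ B
    · rw [hβe e he]
    · obtain ⟨b, h1, h2, h3, h4⟩ := hb.closure hB.indep hinj' (hcl e) he
      have h5 := h4 _ (hβm e he).1
      have h6 : b = β e := by
        by_contra hne
        exact absurd (hlt e he b h1 h2 hne) (not_lt.mpr h5)
      rw [h3, h6]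
  · intro he
    obtain ⟨z, hz1, hz2, -, hz4⟩ := exists_bergM hE hl hB y'
    have hzy : z = y' := by
      funext e
      by_cases heB : e ∈ B
      · exact hz2 e heB
      · obtain ⟨b, h1, h2, h3, h4⟩ := hz4 e heB
        have h5 := h4 _ (hβm e heB).1 (hβB e)
        have h6 : b = β e := by
          by_contra hne
          exact absurd (hlt e heB b h1 h2 hne) (not_lt.mpr h5)
        rw [h3, h6, ← he e]
    rw [← hzy]
    exact hz1

end Pool.Agent.TD
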