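import Pool.Agent.TD.X2.Loc
import Pool.Agent.TD.X2.LL

/-! Charts of tropicalizations near generic points (module TD_X2_COEF). -/

open scoped Topology NNReal

namespace Pool.Agent.TD.X2

/-- The characters of the coordinates near a point which is generic for the basis `B`. -/
def fu {N I E : Type} [AddCommGroup N] {P : AddSubmonoid N} (mt : I → P) (ch : E → P) (B : Set E)
    (e0 : E) : I ⊕ (B \ {e0} : Set E) → P := Sum.elim mt fun e => ch e.1

variable {K A A' N I E : Type} [NormedField K] [CommRing A] [Algebra K A] [CommRing A']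
  [Algebra K A'] [AddCommGroup N] {P : AddSubmonoid N} {r : A →ₐ[K] A'} {χ : P → A} {χ' : N → A'}
  [Fintype I] [Fintype E] {w : P → ℝ} {mt : I → P} {ch : E → P} {M : Matroid E} {e0 : E}
  {U : Set (P → ℝ)} {δ : ℝ}

/-- All characters are nonzero if the coordinates `t_i` are nonzero. -/
theorem CChart.v_ne (hX : CChart K χ w mt ch M e0 U δ) {z : Ber K A} (hz : tr χ z ∈ U)
    (ht : ∀ i, z.v (χ (mt i)) ≠ 0) (m : P) : z.v (χ m) ≠ 0 := by
  obtain ⟨α, n, d, h⟩ := hX.aff m
  rw [h z hz]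
  exact mul_ne_zero (mul_ne_zero (Real.exp_ne_zero _)
    (Finset.prod_ne_zero_iff.2 fun i _ => pow_ne_zero _ (ht i))) (Real.exp_ne_zero _)

/-- The points are determined by the coordinates. -/
theorem CChart.ext (hX : CChart K χ w mt ch M e0 U δ) {z z' : Ber K A} (hz : tr χ z ∈ U)
    (hz' : tr χ z' ∈ U) (ht : ∀ i, z.v (χ (mt i)) = z'.v (χ (mt i)))
    (hy : ∀ e, ye χ w ch z e = ye χ w ch z' e) : tr χ z = tr χ z' := by
  funext m
  obtain ⟨α, n, d, h⟩ := hX.aff m
  show z.v (χ m) = z'.v (χ m)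
  rw [h z hz, h z' hz']
  simp only [ht, hy]

/-- Additive maps extend from `P` to the group `N` generated by `P`. -/
theorem exists_extend {N G : Type} [AddCommGroup N] [AddCommGroup G] {P : AddSubmonoid N}
    (gen : ∀ m : N, ∃ a b : P, m = (a : N) - b) (h : P → G)
    (hadd : ∀ m m', h (m + m') = h m + h m') : ∃ g : N →+ G, ∀ m : P, g m = h m := by
  choose a b hab using gen
  have key : ∀ p q p' q' : P, (p : N) - q = p' - q' → h p - h q = h p' - h q' := by
    intro p q p' q' e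
    have h1 : p + q' = p' + q := by
      apply Subtype.ext
      show (p : N) + q' = p' + q
      have h2 : (p : N) = p' - q' + q := by rw [← e]; abel
      rw [h2]; abel
    have h2 := congrArg h h1
    rw [hadd, hadd] at h2
    have h3 : h p = h p' + h q - h q' := by rw [← h2]; abel
    rw [h3]; abel
  refine ⟨AddMonoidHom.mk' (fun m => h (a m) - h (b m)) ?_, ?_⟩
  · intro m m'
    have h1 := key (a (m + m')) (b (m + m')) (a m + a m') (b m + b m') (by
      rw [← hab (m + m')]
      show m + m' = ((a m : N) + a m') - (b m + b m')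
      have h2 := hab m
      have h3 := hab m'
      calc m + m' = ((a m : N) - b m) + (a m' - b m') := by rw [← h2, ← h3]
        _ = _ := by abel)
    show h (a (m + m')) - h (b (m + m')) = (h (a m) - h (b m)) + (h (a m') - h (b m'))
    rw [h1, hadd, hadd]
    abel
  · intro m
    show h (a m) - h (b m) = h m
    have h1 := key (a m) (b m) (m + b m) (b m) (by
      rw [← hab (m : N)]
      show (m : N) = (m : N) + b m - b m
      abel)
    rw [h1, hadd]
    abel

section

variable {B : Set E} [Fintype (B \ {e0} : Set E)]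

/-- The sum over `E` of a function factoring through `B` as a sum over `B` minus `e0`. -/
theorem sum_fiber [DecidableEq E] (n : E → ℤ) (β : E → E) (hβ : ∀ e, β e ∈ B) (y : E → ℝ) (hy : y e0 = 0) :
    ∑ e, (n e : ℝ) * y (β e) =
      ∑ j : (B \ {e0} : Set E), (((∑ e with β e = j.1, n e : ℤ)) : ℝ) * y j.1 := by
  classical
  have h1 : ∑ e, (n e : ℝ) * y (β e) =
      ∑ e with β e ∈ (B \ {e0} : Set E), (n e : ℝ) * y (β e) := by
    rw [Finset.sum_filter]
    refine Finset.sum_congr rfl fun e _ => ?_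
    split_ifs with h
    · rfl
    · have h2 : β e = e0 := by
        by_contra hc
        exact h ⟨hβ e, hc⟩
      rw [h2, hy, mul_zero]
  rw [h1]
  have h3 : ∀ j : (B \ {e0} : Set E), (((∑ e with β e = j.1, n e : ℤ)) : ℝ) * y j.1 =
      ∑ e with β e = j.1, (n e : ℝ) * y (β e) := by
    intro j
    rw [Int.cast_sum, Finset.sum_mul]
    refine Finset.sum_congr rfl fun e he => ?_
    rw [(Finset.mem_filter.1 he).2]
  simp only [h3]
  rw [← Finset.sum_biUnion]
  · refine Finset.sum_congr ?_ fun _ _ => rfl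
    ext e
    simp only [Finset.mem_filter, Finset.mem_univ, true_and, Finset.mem_biUnion]
    constructor
    · intro h
      exact ⟨⟨β e, h⟩, rfl⟩
    · rintro ⟨j, hj⟩
      rw [hj]
      exact j.2
  · intro j _ j' _ hjj
    rw [Function.onFun, Finset.disjoint_left]
    intro e he he'
    apply hjj
    apply Subtype.ext
    rw [← (Finset.mem_filter.1 he).2, (Finset.mem_filter.1 he').2]

end

/-- Near a generic point the logarithms of the characters are linear functions of the logarithms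
of the coordinates `fu`. -/
theorem CChart.exists_coef (hC : Chars K P r χ χ') (hX : CChart K χ w mt ch M e0 U δ)
    {B : Set E} [Fintype (B \ {e0} : Set E)] (hB : M.IsBase B) (he0 : e0 ∈ B) {z0 : Ber K A}
    (hz0 : tr χ z0 ∈ U) (ht0 : ∀ i, z0.v (χ (mt i)) ≠ 0) (ht1 : ∀ i, z0.v (χ (mt i)) < δ)
    (hy : ∀ e, |ye χ w ch z0 e| < δ) (hinj : Set.InjOn (ye χ w ch z0) B) :
    ∃ (coef : N →+ (I ⊕ (B \ {e0} : Set E) → ℤ)) (b : N →+ ℝ) (η : ℝ), 0 < η ∧
      (∀ m : P, z0.v (χ m) = Real.exp (b m)) ∧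
      (∀ j, coef (fu mt ch B e0 j) j = 1) ∧ (∀ i j, i ≠ j → coef (fu mt ch B e0 i) j = 0) ∧
      (∀ v : I ⊕ (B \ {e0} : Set E) → ℝ, (∀ j, |v j| < η) → ∃ z : Ber K A, tr χ z ∈ U ∧
        ∀ m : P, z.v (χ m) = Real.exp (b m + ∑ j, (coef m j : ℝ) * v j)) ∧
      ∀ z : Ber K A, tr χ z ∈ U → (∀ i, z.v (χ (mt i)) ≠ 0) →
        (∀ j, |Real.log (z.v (χ (fu mt ch B e0 j))) - b (fu mt ch B e0 j)| < η) →
        (∀ e, |ye χ w ch z e - ye χ w ch z0 e| < η) → ∀ m : P, z.v (χ m) =
          Real.exp (b m + ∑ j, (coef m j : ℝ) *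
            (Real.log (z.v (χ (fu mt ch B e0 j))) - b (fu mt ch B e0 j))) := by
  classical
  obtain ⟨β, hβB, hββ, d1, hd1, hloc⟩ :=
    BergM.locally_linear hX.ground hX.loopless (hX.berg z0 hz0) hB hinj
  obtain ⟨b, hb⟩ := hC.exists_log z0 (hX.v_ne hz0 ht0)
  choose α n d haff using hX.aff
  -- the coordinate of `e0` is zero
  have hw0 : w 0 = 1 := by
    obtain ⟨z, hz⟩ := hX.hw
    rw [← hz]
    exact hC.tr_zero z
  have hye0 : ∀ z : Ber K A, ye χ w ch z e0 = 0 := by
    intro z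
    have h1 : z.v (χ 0) = 1 := hC.tr_zero z
    rw [ye, hX.ch0, h1, hw0, sub_self]
  have hw : ∀ e, w (ch e) ≠ 0 := hX.wch
  -- the logarithmic form of the affine functions
  have hlog : ∀ z : Ber K A, tr χ z ∈ U → (∀ i, z.v (χ (mt i)) ≠ 0) → ∀ m : P,
      Real.log (z.v (χ m)) = d m + ∑ i, (α m i : ℝ) * Real.log (z.v (χ (mt i))) +
        ∑ e, (n m e : ℝ) * ye χ w ch z e := by
    intro z hz ht m
    rw [haff m z hz, Real.log_mul (mul_ne_zero (Real.exp_ne_zero _)
      (Finset.prod_ne_zero_iff.2 fun i _ => pow_ne_zero _ (ht i))) (Real.exp_ne_zero _),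
      Real.log_mul (Real.exp_ne_zero _)
      (Finset.prod_ne_zero_iff.2 fun i _ => pow_ne_zero _ (ht i)), Real.log_exp, Real.log_exp,
      Real.log_prod fun i _ => pow_ne_zero _ (ht i)]
    simp only [Real.log_pow]
  set y0 := ye χ w ch z0 with hy0
  have hb0 : BergM M y0 := hX.berg z0 hz0
  have hy0β : ∀ e, y0 e = y0 (β e) := (hloc y0 fun e => by simpa using hd1).1 hb0
  set cP : P → (I ⊕ (B \ {e0} : Set E)) → ℤ :=
    fun m => Sum.elim (fun i => (α m i : ℤ)) (fun j => ∑ e with β e = j.1, n m e) with hcP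
  -- the coordinates
  set Δ : Ber K A → (I ⊕ (B \ {e0} : Set E)) → ℝ :=
    fun z j => Real.log (z.v (χ (fu mt ch B e0 j))) - b (fu mt ch B e0 j) with hΔ
  have hb' : ∀ m : P, b m = Real.log (z0.v (χ m)) := fun m => by rw [hb m, Real.log_exp]
  have hΔl : ∀ z i, Δ z (Sum.inl i) = Real.log (z.v (χ (mt i))) - Real.log (z0.v (χ (mt i))) := by
    intro z i
    simp only [hΔ, fu, Sum.elim_inl]
    rw [hb']
  have hΔr : ∀ z (j : (B \ {e0} : Set E)), Δ z (Sum.inr j) = ye χ w ch z j.1 - y0 j.1 := by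
    intro z j
    simp only [hΔ, fu, Sum.elim_inr]
    rw [hb', hy0, ye, ye]
    ring
  have key : ∀ z : Ber K A, tr χ z ∈ U → (∀ i, z.v (χ (mt i)) ≠ 0) →
      (∀ e, |ye χ w ch z e - y0 e| < d1) → ∀ m : P,
      z.v (χ m) = Real.exp (b m + ∑ j, (cP m j : ℝ) * Δ z j) := by
    intro z hz ht hzy m
    have hβz : ∀ e, ye χ w ch z e = ye χ w ch z (β e) := (hloc _ hzy).1 (hX.berg z hz)
    have hpos : 0 < z.v (χ m) := lt_of_le_of_ne (z.nonneg _) (hX.v_ne hz ht m).symm
    rw [← Real.exp_log hpos]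
    congr 1
    have h1 := hlog z hz ht m
    have h2 := hlog z0 hz0 ht0 m
    have h3 : ∑ e, (n m e : ℝ) * ye χ w ch z e =
        ∑ j : (B \ {e0} : Set E), (((∑ e with β e = j.1, n m e : ℤ)) : ℝ) * ye χ w ch z j.1 := by
      rw [← sum_fiber (n m) β hβB _ (hye0 z)]
      exact Finset.sum_congr rfl fun e _ => by rw [← hβz e]
    have h4 : ∑ e, (n m e : ℝ) * ye χ w ch z0 e =
        ∑ j : (B \ {e0} : Set E), (((∑ e with β e = j.1, n m e : ℤ)) : ℝ) * y0 j.1 := by
      rw [← sum_fiber (n m) β hβB _ (hye0 z0)]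
      exact Finset.sum_congr rfl fun e _ => by rw [← hy0, ← hy0β e]
    rw [hb' m, h1, h2, h3, h4, Fintype.sum_sum_type]
    simp only [hΔl, hΔr, hcP, Sum.elim_inl, Sum.elim_inr, mul_sub, Finset.sum_sub_distrib,
      Int.cast_natCast]
    ring
  -- the choice of eta
  obtain ⟨η, hη0, hη1, hη2, hη3⟩ : ∃ η : ℝ, 0 < η ∧ η ≤ d1 ∧
      (∀ i, z0.v (χ (mt i)) * Real.exp η < δ) ∧ ∀ e, |y0 e| + η < δ := by
    have e1 : ∀ᶠ η in 𝓝 (0 : ℝ), ∀ i, z0.v (χ (mt i)) * Real.exp η < δ := by
      rw [Filter.eventually_all]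
      intro i
      have hc : Continuous fun η : ℝ => z0.v (χ (mt i)) * Real.exp η := by fun_prop
      exact hc.continuousAt.eventually_lt continuousAt_const (by simpa using ht1 i)
    have e2 : ∀ᶠ η in 𝓝 (0 : ℝ), ∀ e, |y0 e| + η < δ := by
      rw [Filter.eventually_all]
      intro e
      have hc : Continuous fun η : ℝ => |y0 e| + η := by fun_prop
      exact hc.continuousAt.eventually_lt continuousAt_const (by simpa using hy e)
    have e3 : ∀ᶠ η in 𝓝 (0 : ℝ), η ≤ d1 := (eventually_lt_nhds hd1).mono fun _ h => h.le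
    obtain ⟨η, h, h0⟩ := (((e1.and (e2.and e3)).filter_mono
      (nhdsWithin_le_nhds (s := Set.Ioi 0))).and self_mem_nhdsWithin).exists
    exact ⟨η, h0, h.2.2, h.1, h.2.1⟩
  -- the points near `z0`
  have near : ∀ v : I ⊕ (B \ {e0} : Set E) → ℝ, (∀ j, |v j| < η) → ∃ z : Ber K A, tr χ z ∈ U ∧
      (∀ m : P, z.v (χ m) = Real.exp (b m + ∑ j, (cP m j : ℝ) * v j)) ∧
      ∀ j, z.v (χ (fu mt ch B e0 j)) = Real.exp (b (fu mt ch B e0 j) + v j) := by
    intro v hv
    set vx : E → ℝ := fun e => if h : e ∈ (B \ {e0} : Set E) then v (Sum.inr ⟨e, h⟩) else 0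
      with hvx
    have hvx0 : vx e0 = 0 := by
      rw [hvx]
      exact dif_neg fun h => h.2 rfl
    have hvxj : ∀ j : (B \ {e0} : Set E), vx j.1 = v (Sum.inr j) := by
      intro j
      rw [hvx]
      exact dif_pos j.2
    have hvxb : ∀ e, |vx e| < η := by
      intro e
      by_cases h : e ∈ (B \ {e0} : Set E)
      · have h1 := hvxj ⟨e, h⟩
        simp only at h1
        rw [h1]
        exact hv _
      · have h1 : vx e = 0 := dif_neg h
        rw [h1, abs_zero]
        exact hη0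
    set yv : E → ℝ := fun e => y0 e + vx (β e) with hyv
    have hyvd : ∀ e, |yv e - y0 e| < η := fun e => by
      have h1 : yv e - y0 e = vx (β e) := by rw [hyv]; ring
      rw [h1]
      exact hvxb _
    have hberg : BergM M yv := by
      refine (hloc yv fun e => (hyvd e).trans_le hη1).2 fun e => ?_
      show y0 e + vx (β e) = y0 (β e) + vx (β (β e))
      rw [hββ (β e) (hβB e), ← hy0β e]
    have hyv0 : yv e0 = 0 := by
      show y0 e0 + vx (β e0) = 0
      rw [hββ e0 he0, hvx0, hy0, hye0 z0, add_zero]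
    obtain ⟨z, hzU, hzt, hzy⟩ := hX.ex
      (fun i => ⟨z0.v (χ (mt i)) * Real.exp (v (Sum.inl i)),
        mul_nonneg (z0.nonneg _) (Real.exp_pos _).le⟩) yv
      (fun i => by
        refine lt_of_le_of_lt ?_ (hη2 i)
        exact mul_le_mul_of_nonneg_left
          (Real.exp_le_exp.2 (le_of_lt (lt_of_le_of_lt (le_abs_self _) (hv _)))) (z0.nonneg _))
      (fun e => by
        have h1 : |yv e| ≤ |y0 e| + |vx (β e)| := abs_add_le _ _
        exact lt_of_le_of_lt h1 (lt_trans (add_lt_add_right (hvxb _) _) (hη3 e)))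
      hyv0 hberg
    have hzt' : ∀ i, z.v (χ (mt i)) = z0.v (χ (mt i)) * Real.exp (v (Sum.inl i)) := hzt
    have hzne : ∀ i, z.v (χ (mt i)) ≠ 0 := fun i => by
      rw [hzt' i]
      exact mul_ne_zero (ht0 i) (Real.exp_ne_zero _)
    have hD : ∀ j, Δ z j = v j := by
      rintro (i | j)
      · rw [hΔl, hzt' i, Real.log_mul (ht0 i) (Real.exp_ne_zero _), Real.log_exp]
        ring
      · rw [hΔr, hzy]
        show y0 j.1 + vx (β j.1) - y0 j.1 = _
        rw [hββ j.1 j.2.1, hvxj j]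
        ring
    refine ⟨z, hzU, fun m => ?_, fun j => ?_⟩
    · rw [key z hzU hzne (fun e => by rw [hzy]; exact (hyvd e).trans_le hη1) m]
      simp only [hD]
    · have hpos : 0 < z.v (χ (fu mt ch B e0 j)) :=
        lt_of_le_of_ne (z.nonneg _) (hX.v_ne hzU hzne _).symm
      rw [← Real.exp_log hpos]
      congr 1
      rw [← hD j]
      simp only [hΔ]
      ring
  -- one coordinate
  have one : ∀ j0, ∃ z : Ber K A, (∀ m : P, z.v (χ m) = Real.exp (b m + (cP m j0 : ℝ) * (η / 2)))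
      ∧ ∀ j, z.v (χ (fu mt ch B e0 j)) = Real.exp (b (fu mt ch B e0 j) +
        if j = j0 then η / 2 else 0) := by
    intro j0
    obtain ⟨z, -, h1, h2⟩ := near (fun j => if j = j0 then η / 2 else 0) (fun j => by
      split_ifs
      · rw [abs_of_pos (by positivity)]
        linarith
      · simpa using hη0)
    refine ⟨z, fun m => ?_, h2⟩
    rw [h1 m]
    simp
  have hη2' : η / 2 ≠ 0 := by positivity
  have cadd : ∀ m m' : P, cP (m + m') = cP m + cP m' := by
    intro m m'
    funext j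
    obtain ⟨z, h1, -⟩ := one j
    have h2 : z.v (χ (m + m')) = z.v (χ m) * z.v (χ m') := hC.tr_add z m m'
    rw [h1, h1, h1, ← Real.exp_add] at h2
    have h3 := Real.exp_injective h2
    have h4 : b ((m + m' : P) : N) = b m + b m' := by
      rw [← map_add]
      rfl
    have h5 : (cP (m + m') j : ℝ) * (η / 2) = (cP m j + cP m' j) * (η / 2) := by
      rw [h4] at h3
      linarith
    have h6 := mul_right_cancel₀ hη2' h5
    show cP (m + m') j = cP m j + cP m' j
    exact_mod_cast h6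
  obtain ⟨coef, hcoef⟩ := exists_extend hC.gen cP cadd
  refine ⟨coef, b, η, hη0, hb, ?_, ?_, ?_, ?_⟩
  · intro j
    rw [hcoef]
    obtain ⟨z, h1, h2⟩ := one j
    have h3 := h2 j
    rw [h1, if_pos rfl] at h3
    have h4 := Real.exp_injective h3
    have h5 : (cP (fu mt ch B e0 j) j : ℝ) * (η / 2) = 1 * (η / 2) := by linarith
    exact_mod_cast mul_right_cancel₀ hη2' h5
  · intro i j hij
    rw [hcoef]
    obtain ⟨z, h1, h2⟩ := one j
    have h3 := h2 i
    rw [h1, if_neg hij] at h3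
    have h4 := Real.exp_injective h3
    have h5 : (cP (fu mt ch B e0 i) j : ℝ) * (η / 2) = 0 * (η / 2) := by linarith
    exact_mod_cast mul_right_cancel₀ hη2' h5
  · intro v hv
    obtain ⟨z, hz, h1, -⟩ := near v hv
    refine ⟨z, hz, fun m => ?_⟩
    rw [h1 m, hcoef]
  · intro z hz ht _ hzy m
    rw [hcoef]
    exact key z hz ht (fun e => (hzy e).trans_le hη1) m

end Pool.Agent.TD.X2
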