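import Pool.Agent.TD.X2.Coef

/-! Generic points of charts are facets (module TD_X2_FAC). -/

open scoped Topology NNReal

namespace Pool.Agent.TD.X2

variable {K A A' N I E : Type} [NormedField K] [CommRing A] [Algebra K A] [CommRing A']
  [Algebra K A'] [AddCommGroup N] {P : AddSubmonoid N} {r : A →ₐ[K] A'} {χ : P → A} {χ' : N → A'}
  [Fintype I] [Fintype E] {w : P → ℝ} {mt : I → P} {ch : E → P} {M : Matroid E} {e0 : E}
  {U : Set (P → ℝ)} {δ : ℝ}

/-- The linear functions of the logarithms of the coordinates. -/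
noncomputable def clin {σ : Type} [Fintype σ] (coef : N →+ (σ → ℤ)) : (σ → ℝ) →ₗ[ℝ] (N →+ ℝ) where
  toFun v :=
    { toFun := fun m => ∑ j, (coef m j : ℝ) * v j
      map_zero' := by simp
      map_add' := by
        intro m m'
        simp [add_mul, Finset.sum_add_distrib] }
  map_add' v v' := by
    ext m
    show ∑ j, (coef m j : ℝ) * (v j + v' j) = ∑ j, (coef m j : ℝ) * v j + ∑ j, (coef m j : ℝ) * v' j
    rw [← Finset.sum_add_distrib]
    exact Finset.sum_congr rfl fun j _ => by ring
  map_smul' c v := by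
    ext m
    show ∑ j, (coef m j : ℝ) * (c * v j) = c * ∑ j, (coef m j : ℝ) * v j
    rw [Finset.mul_sum]
    exact Finset.sum_congr rfl fun j _ => by ring

theorem clin_apply {σ : Type} [Fintype σ] (coef : N →+ (σ → ℤ)) (v : σ → ℝ) (m : N) :
    clin coef v m = ∑ j, (coef m j : ℝ) * v j := rfl

/-- Generic points of a chart give facets. -/
theorem CChart.facet (hC : Chars K P r χ χ') (hX : CChart K χ w mt ch M e0 U δ)
    (hW : Wt K χ χ') {B : Set E} [Fintype (B \ {e0} : Set E)] (hB : M.IsBase B) (he0 : e0 ∈ B)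
    {z0 : Ber K A} (hz0 : tr χ z0 ∈ U) (ht0 : ∀ i, z0.v (χ (mt i)) ≠ 0)
    (ht1 : ∀ i, z0.v (χ (mt i)) < δ) (hy : ∀ e, |ye χ w ch z0 e| < δ)
    (hinj : Set.InjOn (ye χ w ch z0) B) :
    ∃ (coef : N →+ (I ⊕ (B \ {e0} : Set E) → ℤ)) (b : N →+ ℝ),
      FA.Facet K χ' (fun j => (fu mt ch B e0 j : N)) coef b ∧
        ∀ m : P, z0.v (χ m) = Real.exp (b m) := by
  obtain ⟨coef, b, η, hη, hb, hs, hn, hex, hall⟩ :=
    hX.exists_coef hC hB he0 hz0 ht0 ht1 hy hinj
  have htr0 : (fun m : P => Real.exp (b m)) = tr χ z0 := funext fun m => (hb m).symm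
  have hval : ∀ (v : I ⊕ (B \ {e0} : Set E) → ℝ) j, clin coef v (fu mt ch B e0 j : N) = v j := by
    intro v j
    rw [clin_apply, Finset.sum_eq_single j]
    · rw [hs j]; simp
    · intro i _ hij
      rw [hn j i (Ne.symm hij)]; simp
    · intro h; exact absurd (Finset.mem_univ j) h
  refine ⟨coef, b, ⟨hC.zero', hC.add', hC.span', hC.fgN, hs, hn, ⟨η, hη, ?_⟩, ?_⟩, hb⟩
  · intro v hv
    obtain ⟨z, -, hz⟩ := hex v hv
    obtain ⟨z', hz'⟩ := hC.exists_ext z (fun m => by rw [hz m]; exact (Real.exp_pos _).ne')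
    refine ⟨z', ?_⟩
    have h1 : z' ∈ FA.Fib K χ' ((b + clin coef v : N →+ ℝ) : N → ℝ) := by
      rw [hC.mem_Fib_iff]
      intro m
      rw [hz', hz m]
      rfl
    exact h1
  · intro m hm
    refine hW b ⟨z0, htr0.symm⟩ (LinearMap.range (clin coef)) ?_ m ?_
    · let O : Set (P → ℝ) := {b' | b' ∈ U ∧ (∀ i, 0 < b' (mt i)) ∧ (∀ e, 0 < b' (ch e)) ∧
        (∀ j, |Real.log (b' (fu mt ch B e0 j)) - b (fu mt ch B e0 j)| < η) ∧
        ∀ e, |(Real.log (b' (ch e)) - Real.log (w (ch e))) - ye χ w ch z0 e| < η}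
      have hfu : ∀ b' ∈ O, ∀ j, 0 < b' (fu mt ch B e0 j) := by
        rintro b' ⟨-, h1, h2, -, -⟩ (i | e)
        · exact h1 i
        · exact h2 e.1
      refine ⟨O, ?_, ?_, ?_⟩
      · rw [isOpen_iff_eventually]
        intro x hx
        have hxf := hfu x hx
        obtain ⟨h0, h1, h2, h3, h4⟩ := hx
        have hc : ∀ m : P, ContinuousAt (fun b' : P → ℝ => b' m) x := fun m =>
          (continuous_apply m).continuousAt
        refine (hX.isOpen.eventually_mem h0).and (Filter.Eventually.and ?_
          (Filter.Eventually.and ?_ (Filter.Eventually.and ?_ ?_)))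
        · exact Filter.eventually_all.2 fun i => (hc _).tendsto.eventually_const_lt (h1 i)
        · exact Filter.eventually_all.2 fun e => (hc _).tendsto.eventually_const_lt (h2 e)
        · refine Filter.eventually_all.2 fun j => ?_
          have h5 : ContinuousAt (fun b' : P → ℝ =>
              |Real.log (b' (fu mt ch B e0 j)) - b (fu mt ch B e0 j)|) x :=
            (((hc _).log (hxf j).ne').sub continuousAt_const).abs
          exact h5.tendsto.eventually_lt_const (h3 j)
        · refine Filter.eventually_all.2 fun e => ?_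
          have h5 : ContinuousAt (fun b' : P → ℝ =>
              |(Real.log (b' (ch e)) - Real.log (w (ch e))) - ye χ w ch z0 e|) x :=
            ((((hc _).log (h2 e).ne').sub continuousAt_const).sub continuousAt_const).abs
          exact h5.tendsto.eventually_lt_const (h4 e)
      · refine ⟨by rw [htr0]; exact hz0, fun i => Real.exp_pos _, fun e => Real.exp_pos _,
          fun j => ?_, fun e => ?_⟩
        · show |Real.log (Real.exp (b (fu mt ch B e0 j))) - b (fu mt ch B e0 j)| < η
          rw [Real.log_exp, sub_self, abs_zero]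
          exact hη
        · show |(Real.log (Real.exp (b (ch e))) - Real.log (w (ch e))) - ye χ w ch z0 e| < η
          unfold ye
          rw [hb (ch e), sub_self, abs_zero]
          exact hη
      · intro b' hb'
        have hbf := hfu b' hb'
        constructor
        · rintro ⟨z, rfl⟩
          obtain ⟨h0, h1, h2, h3, h4⟩ := hb'
          have h5 := hall z h0 (fun i => (h1 i).ne') h3 h4
          refine ⟨clin coef fun j => Real.log (z.v (χ (fu mt ch B e0 j))) - b (fu mt ch B e0 j),
            ⟨_, rfl⟩, fun m => ?_⟩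
          rw [← Real.exp_add]
          exact h5 m
        · rintro ⟨l, ⟨v, rfl⟩, hl⟩
          obtain ⟨h0, h1, h2, h3, h4⟩ := hb'
          have hv : ∀ j, |v j| < η := by
            intro j
            have h5 := h3 j
            rw [hl, ← Real.exp_add, Real.log_exp, add_sub_cancel_left, hval v j] at h5
            exact h5
          obtain ⟨z, -, hz⟩ := hex v hv
          refine ⟨z, funext fun m => ?_⟩
          rw [hl m, ← Real.exp_add]
          exact hz m
    · rintro l ⟨v, rfl⟩
      rw [clin_apply, hm]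
      simp

end Pool.Agent.TD.X2
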